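import Pool.Agent.Helper50.CT.Goals

set_option autoImplicit false

namespace Pool.Agent.Helper83.CT

open Pool.Agent.Helper50.CT

theorem cosh_sub_ge {U S : ℝ} (hU : 0 ≤ U) (hS : 0 ≤ S) :
    Real.cosh U - S * Real.sinh U ≤ Real.cosh (U - S) := by
  rw [Real.cosh_sub]
  have h1 : 0 ≤ Real.sinh S - S := by
    have := Real.self_le_sinh_iff.2 hS
    linarith
  have h2 : Real.sinh S - S ≤ Real.cosh S - 1 := by
    have h3 := Real.add_one_le_exp (-S)
    have h4 := Real.cosh_sub_sinh S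
    linarith
  have h5 : Real.sinh U ≤ Real.cosh U := by
    have := Real.cosh_sub_sinh U
    have := Real.exp_pos (-U)
    linarith
  have h6 : 0 < Real.cosh U := Real.cosh_pos U
  have h7 : Real.sinh U * (Real.sinh S - S) ≤ Real.cosh U * (Real.cosh S - 1) := by
    calc Real.sinh U * (Real.sinh S - S) ≤ Real.cosh U * (Real.sinh S - S) :=
          mul_le_mul_of_nonneg_right h5 h1
      _ ≤ Real.cosh U * (Real.cosh S - 1) := mul_le_mul_of_nonneg_left h2 h6.le
  nlinarith [h7]

theorem cosh_lt {x : ℝ} (h0 : 0 ≤ x) (h : x ≤ 11 / 10) : Real.cosh x < 5 / 2 := by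
  have h1 : Real.cosh x ≤ Real.cosh (11 / 10) := by
    rw [Real.cosh_le_cosh, abs_of_nonneg h0, abs_of_nonneg (by norm_num)]
    exact h
  have h2 := Real.cosh_le_exp_half_sq (11 / 10)
  have h3 : Real.exp ((11 / 10) ^ 2 / 2) = Real.exp (121 / 400) ^ 2 := by
    rw [← Real.exp_nat_mul]; norm_num
  have h4 : Real.exp (121 / 400) ≤ 1 / (1 - 121 / 400) := by
    have h5 := Real.add_one_le_exp (-(121 / 400 : ℝ))
    have h6 : Real.exp (121 / 400) * Real.exp (-(121 / 400)) = 1 := by
      rw [← Real.exp_add]; simp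
    rw [le_div_iff₀ (by norm_num)]
    calc Real.exp (121 / 400) * (1 - 121 / 400)
        ≤ Real.exp (121 / 400) * Real.exp (-(121 / 400)) :=
          mul_le_mul_of_nonneg_left (by linarith) (Real.exp_pos _).le
      _ = 1 := h6
  have h7 : 0 < Real.exp (121 / 400) := Real.exp_pos _
  rw [h3] at h2
  have h8 : Real.exp (121 / 400) ^ 2 ≤ (1 / (1 - 121 / 400)) ^ 2 :=
    pow_le_pow_left₀ h7.le h4 2
  have h9 : ((1 : ℝ) / (1 - 121 / 400)) ^ 2 < 5 / 2 := by norm_num
  linarith

theorem ang_gt {κ a b c τ : ℝ} (hκ : 0 < κ) (ha : 0 < a) (hb : 0 < b) (ha1 : κ * a ≤ 11 / 10)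
    (hb1 : κ * b ≤ 11 / 10) (hτa : 10 * τ ≤ a) (hτb : 10 * τ ≤ b) (hc : a + b - τ ≤ c) :
    2 * Real.pi / 3 < ang κ a b c := by
  set A := κ * a with hA
  set B := κ * b with hB
  set S := κ * max τ 0 with hS
  have hA0 : 0 < A := mul_pos hκ ha
  have hB0 : 0 < B := mul_pos hκ hb
  have hS0 : 0 ≤ S := mul_nonneg hκ.le (le_max_right _ _)
  have hSA : 10 * S ≤ A := by
    have : 10 * max τ 0 ≤ a := by
      rcases max_cases τ 0 with ⟨h, _⟩ | ⟨h, _⟩ <;> rw [h] <;> linarith
    calc 10 * S = κ * (10 * max τ 0) := by rw [hS]; ring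
      _ ≤ κ * a := mul_le_mul_of_nonneg_left this hκ.le
  have hSB : 10 * S ≤ B := by
    have : 10 * max τ 0 ≤ b := by
      rcases max_cases τ 0 with ⟨h, _⟩ | ⟨h, _⟩ <;> rw [h] <;> linarith
    calc 10 * S = κ * (10 * max τ 0) := by rw [hS]; ring
      _ ≤ κ * b := mul_le_mul_of_nonneg_left this hκ.le
  have hC : A + B - S ≤ κ * c := by
    have h1 : a + b - max τ 0 ≤ c := by
      have := le_max_left τ 0
      linarith
    calc A + B - S = κ * (a + b - max τ 0) := by rw [hA, hB, hS]; ring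
      _ ≤ κ * c := mul_le_mul_of_nonneg_left h1 hκ.le
  have hcosh : Real.cosh (A + B - S) ≤ Real.cosh (κ * c) := by
    rw [Real.cosh_le_cosh, abs_of_nonneg (by linarith), abs_of_nonneg (by linarith)]
    exact hC
  have h1 := cosh_sub_ge (U := A + B) (S := S) (by linarith) hS0
  have hsA : 0 < Real.sinh A := Real.sinh_pos_iff.2 hA0
  have hsB : 0 < Real.sinh B := Real.sinh_pos_iff.2 hB0
  have hAs : A ≤ Real.sinh A := Real.self_le_sinh_iff.2 hA0.le
  have hBs : B ≤ Real.sinh B := Real.self_le_sinh_iff.2 hB0.le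
  have hcA := cosh_lt hA0.le ha1
  have hcB := cosh_lt hB0.le hb1
  have hcA0 := Real.cosh_pos A
  have hcB0 := Real.cosh_pos B
  have hP : 0 < Real.sinh A * Real.sinh B := mul_pos hsA hsB
  have e1 : S * Real.sinh A * Real.cosh B ≤ (1 / 10) * Real.cosh B * (Real.sinh A * Real.sinh B) := by
    have : S * (Real.sinh A * Real.cosh B) ≤ (Real.sinh B / 10) * (Real.sinh A * Real.cosh B) :=
      mul_le_mul_of_nonneg_right (by linarith) (mul_pos hsA hcB0).le
    linarith
  have e2 : S * Real.cosh A * Real.sinh B ≤ (1 / 10) * Real.cosh A * (Real.sinh A * Real.sinh B) := by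
    have : S * (Real.cosh A * Real.sinh B) ≤ (Real.sinh A / 10) * (Real.cosh A * Real.sinh B) :=
      mul_le_mul_of_nonneg_right (by linarith) (mul_pos hcA0 hsB).le
    linarith
  have e3 : (1 / 10) * Real.cosh B * (Real.sinh A * Real.sinh B)
      < (1 / 4) * (Real.sinh A * Real.sinh B) := by
    apply mul_lt_mul_of_pos_right _ hP
    linarith
  have e4 : (1 / 10) * Real.cosh A * (Real.sinh A * Real.sinh B)
      < (1 / 4) * (Real.sinh A * Real.sinh B) := by
    apply mul_lt_mul_of_pos_right _ hP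
    linarith
  have h2 : Real.cosh A * Real.cosh B - Real.cosh (κ * c) < -(1 / 2) * (Real.sinh A * Real.sinh B) := by
    rw [Real.cosh_add, Real.sinh_add] at h1
    have h3 : S * (Real.sinh A * Real.cosh B + Real.cosh A * Real.sinh B) =
      S * Real.sinh A * Real.cosh B + S * Real.cosh A * Real.sinh B := by ring
    rw [h3] at h1
    linarith
  have h3 : (Real.cosh A * Real.cosh B - Real.cosh (κ * c)) / (Real.sinh A * Real.sinh B) < -(1 / 2) := by
    rw [div_lt_iff₀ hP]
    exact h2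
  have harc : Real.arccos (-(1 / 2)) = 2 * Real.pi / 3 := by
    rw [Real.arccos_neg, ← Real.cos_pi_div_three, Real.arccos_cos]
    · ring
    · have := Real.pi_pos; positivity
    · have := Real.pi_pos; linarith
  unfold ang
  rw [← harc]
  by_cases hle : (Real.cosh A * Real.cosh B - Real.cosh (κ * c)) / (Real.sinh A * Real.sinh B) ≤ -1
  · rw [Real.arccos_eq_pi.2 hle, harc]
    have := Real.pi_pos
    linarith
  · push Not at hle
    exact Real.arccos_lt_arccos hle.le h3 (by norm_num)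

theorem goalTRI : Pool.Agent.Helper50.CT.StmtTRI := by
  intro κ hκ X _ hX y P1 P2 P3 τ h1 h2 h3 k1 k2 k3 t1 t2 t3 d12 d13 d23
  have n1 : P1 ≠ y := by rintro rfl; simp at h1
  have n2 : P2 ≠ y := by rintro rfl; simp at h2
  have n3 : P3 ≠ y := by rintro rfl; simp at h3
  have h := hX y P1 P2 P3 n1 n2 n3
  have a12 := ang_gt hκ h1 h2 k1 k2 t1 t2 d12
  have a23 := ang_gt hκ h2 h3 k2 k3 t2 t3 d23
  have a31 := ang_gt hκ h3 h1 k3 k1 t3 t1 (c := dist P3 P1) (by rw [dist_comm P3 P1]; linarith)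
  have := Real.pi_pos
  linarith

end Pool.Agent.Helper83.CT
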